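import Pool.Agent.Helper454.Kauf.Defs

/-!
# Tie sequences and the diagrams of tie knots

Diagrams are the sliced diagrams of the starting library (`Pool.Agent.Helper454.Kauf.Word`): a list
of pieces read from top to bottom, acting on the strands `0, 1, 2, ...` numbered from left to right:
`birth i` (a local maximum), `death i` (a local minimum), `pos i` (a crossing, the strand from top
right to bottom left is over) and `neg i` (a crossing, the strand from top left to bottom right is
over).  `Isotopic` is generated by planar isotopy and the Reidemeister moves I, II, III.

**The tie.**  After the first move there is one crossing, with four ends: the two legs `A` (left) and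
`B` (right) of the neck loop at the top, the passive end `P` and the active end `X` at the bottom.
The three regions are: left, between the legs `A` and `P`; right, between `P` and `B`; centre, between
`A` and `B`.  A half turn from one region to another one makes `X` cross the leg between the two
regions, outside everything drawn before, over it for an in-move and under it for an out-move.

The part of the diagram drawn so far is a tangle `W`:
* in the left region: ends `A B` at the top and `X P` at the bottom;
* in the right region: ends `A B` at the top and `P X` at the bottom;
* in the centre region: ends `A X B` at the top and `P` at the bottom.
-/

set_option autoImplicit false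

namespace Pool.Agent.Q124.Tie

open Pool.Agent.Helper454.Kauf
open Pool.Agent.Helper454.Kauf.Piece (birth death pos neg)

/-- the three regions: left, right, centre -/
inductive Region : Type
  | L : Region
  | R : Region
  | C : Region
  deriving DecidableEq

open Region

/-- A move (a half turn) is a region and a direction: `true` is in (the active strand passes over),
`false` is out (the active strand passes under). So `(L, true)` is `L_i` and `(L, false)` is
`L_o`. -/
abbrev Move : Type := Region × Bool

/-- Tie sequences (the final tuck `T` is not written). -/
structure IsTie (s : List Move) : Prop where
  /-- the first move is `L_i` or `L_o` -/
  first : ∃ (b : Bool) (t : List Move), s = (L, b) :: t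
  /-- consecutive moves lie in different regions -/
  regions : s.IsChain (fun x y => x.1 ≠ y.1)
  /-- in and out alternate -/
  alternate : s.IsChain (fun x y => x.2 ≠ y.2)
  /-- the last moves before `T` are `L_o R_i C_o` or `R_o L_i C_o` -/
  ending : ∃ t : List Move, s = t ++ [(L, false), (R, true), (C, false)] ∨
    s = t ++ [(R, false), (L, true), (C, false)]

/-- A crossing at the strands `i`, `i + 1`: `pos i` if the flag is `true`, `neg i` otherwise. -/
def crossing (b : Bool) (i : ℕ) : Piece := if b then pos i else neg i

/-- The diagram `w` with `a` further vertical strands on its left. -/
def right (a : ℕ) (w : Word) : Word := w.map (fun p => p.moved (p.index + a))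

/-- One half turn: the active end goes from the region `r` to the region of the move, and `W` is
the tangle drawn so far. -/
def turn : Region → Move → Word → Word
  -- left to right and back: `X` crosses `P` at the bottom
  | L, (R, b), W => W ++ [crossing (!b) 0]
  | R, (L, b), W => W ++ [crossing b 0]
  -- left to centre: `X` turns up on the left of `W` and crosses `A`
  | L, (C, b), W => [crossing b 0] ++ right 1 W ++ [death 0]
  -- centre to left: `X` crosses `A` and goes down on the left of `W`
  | C, (L, b), W => [birth 0, crossing (!b) 1] ++ right 1 W
  -- right to centre: `X` turns up on the right of `W` and crosses `B`
  | R, (C, b), W => [crossing (!b) 1] ++ W ++ [death 1]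
  -- centre to right: `X` crosses `B` and goes down on the right of `W`
  | C, (R, b), W => [birth 2, crossing b 1] ++ W
  | _, _, W => W

/-- The last half turn `C_o` (under a leg of the neck loop into the centre), the tuck `T` (back over
that leg, then over and then under the active strand's own last loop, which is the part of the
active strand between `W` and the last half turn) and the joining of the two ends `A`, `B` and of
the two ends of the tie.  `W` is the tangle drawn before the last half turn and the region is the
one `C_o` starts from.

In the region right: the last loop leaves `W` at its bottom right end and goes up as strand 2; it
meets the tucked end (strand 3) in the two crossings `pos 2` and the leg `B` (strand 1) in the two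
crossings `pos 1` (the lower one is `C_o`, the upper one the first crossing of `T`). -/
def tuck : Region → Word → Word
  | R, W => [birth 0, birth 2, pos 1, pos 1, pos 2, pos 2] ++ W ++ [death 1, death 0]
  | L, W => [birth 0, birth 0, neg 1, neg 1, neg 0, neg 0] ++ right 2 W ++ [death 1, death 0]
  | C, W => W

/-- All the moves of a list but the last one, then `tuck`. -/
def finish : Region → Word → List Move → Word
  | r, W, [] => tuck r W
  | r, W, [_] => tuck r W
  | r, W, m :: m' :: s => finish m.1 (turn r m W) (m' :: s)

/-- **The diagram of the tie knot** of a tie sequence. The first move `L_i` (`L_o`) is the crossing
in which the active strand, from top right to bottom left, is over (under). -/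
def tieDiagram : List Move → Word
  | [] => []
  | m :: s => finish L [crossing m.2 0] s

/-- The number of local maxima of a diagram. -/
def maxima : Word → ℕ
  | [] => 0
  | birth _ :: w => maxima w + 1
  | _ :: w => maxima w

/-- The link with the diagram `D` has bridge number at most `n`: it has a diagram with at most `n`
local maxima. -/
def BridgeAtMost (n : ℕ) (D : Word) : Prop := ∃ w : Word, Closed w ∧ Isotopic D w ∧ maxima w ≤ n

end Pool.Agent.Q124.Tie
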