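import Pool.Agent.Q124.TK.Rat
import Pool.Agent.Q124.Tie.Defs

/-!
# Tie knots are plats on four strands
-/

set_option autoImplicit false

namespace Pool.Agent.Q124.Tie

open Pool.Agent.Helper454.Kauf
open Pool.Agent.Helper454.Kauf.Piece (birth death pos neg)
open Pool.Agent.Q124.TK Region

/-- the tangles of a state are rational -/
def Inv : Region → Word → Prop
  | C, W => width W 3 = some 1 ∧ Rat (FC W)
  | _, W => width W 2 = some 2 ∧ Rat (FS W)

theorem right_eq (a : ℕ) (w : Word) : right a w = shift a w := rfl
theorem crossing_eq (b : Bool) (i : ℕ) : crossing b i = lett b i := rfl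

theorem inv_turn {r : Region} {m : Move} {W : Word} (h : Inv r W) (hr : r ≠ m.1) :
    Inv m.1 (turn r m W) := by
  obtain ⟨q, b⟩ := m
  rcases r with _ | _ | _ <;> rcases q with _ | _ | _
  · exact absurd rfl hr
  · obtain ⟨hW, h⟩ := h
    exact ⟨width_comp hW (E.lw _ 0 (by omega)),
      (stay W (!b)).symm ▸ h.app (!b) 1 (by omega)⟩
  · obtain ⟨hW, h⟩ := h
    refine ⟨?_, (Rat.rot (h.app b 0 (by omega))).congr (toC_L hW b)⟩
    show width ([lett b 0] ++ shift 1 W ++ [death 0]) 3 = some 1
    exact (by
        try simp only [List.append_assoc, List.cons_append, List.nil_append, shift_append,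
          shift_shift, shift_nil, shift_cons, up_birth, up_death, up_pos, up_neg, up_lett]
        repeat (first
          | refine wb (by omega) ?_ | refine wdt (by omega) ?_ | refine wp (by omega) ?_
          | refine wg (by omega) ?_ | refine wl (by omega) ?_
          | refine wsh (by assumption) (by omega) ?_ | refine wsh0 (by assumption) (by omega) ?_)
        first
          | exact wn (by omega) | exact wsh1 (by assumption) (by omega) (by omega)
          | exact wsh2 (by assumption) (by omega) (by omega))
  · obtain ⟨hW, h⟩ := h
    exact ⟨width_comp hW (E.lw _ 0 (by omega)),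
      (stay W b).symm ▸ h.app b 1 (by omega)⟩
  · exact absurd rfl hr
  · obtain ⟨hW, h⟩ := h
    refine ⟨?_, (h.app (!b) 2 (by omega)).congr (toC_R hW (!b))⟩
    show width ([lett (!b) 1] ++ W ++ [death 1]) 3 = some 1
    exact (by
        try simp only [List.append_assoc, List.cons_append, List.nil_append, shift_append,
          shift_shift, shift_nil, shift_cons, up_birth, up_death, up_pos, up_neg, up_lett]
        repeat (first
          | refine wb (by omega) ?_ | refine wdt (by omega) ?_ | refine wp (by omega) ?_
          | refine wg (by omega) ?_ | refine wl (by omega) ?_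
          | refine wsh (by assumption) (by omega) ?_ | refine wsh0 (by assumption) (by omega) ?_)
        first
          | exact wn (by omega) | exact wsh1 (by assumption) (by omega) (by omega)
          | exact wsh2 (by assumption) (by omega) (by omega))
  · obtain ⟨hW, h⟩ := h
    refine ⟨?_, (h.rot'.app (!b) 0 (by omega)).congr (fromC_L hW (!b))⟩
    show width ([birth 0, lett (!b) 1] ++ shift 1 W) 2 = some 2
    exact (by
        try simp only [List.append_assoc, List.cons_append, List.nil_append, shift_append,
          shift_shift, shift_nil, shift_cons, up_birth, up_death, up_pos, up_neg, up_lett]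
        repeat (first
          | refine wb (by omega) ?_ | refine wdt (by omega) ?_ | refine wp (by omega) ?_
          | refine wg (by omega) ?_ | refine wl (by omega) ?_
          | refine wsh (by assumption) (by omega) ?_ | refine wsh0 (by assumption) (by omega) ?_)
        first
          | exact wn (by omega) | exact wsh1 (by assumption) (by omega) (by omega)
          | exact wsh2 (by assumption) (by omega) (by omega))
  · obtain ⟨hW, h⟩ := h
    refine ⟨?_, (h.app b 2 (by omega)).congr (fromC_R hW b)⟩
    show width ([birth 2, lett b 1] ++ W) 2 = some 2
    exact (by
        try simp only [List.append_assoc, List.cons_append, List.nil_append, shift_append,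
          shift_shift, shift_nil, shift_cons, up_birth, up_death, up_pos, up_neg, up_lett]
        repeat (first
          | refine wb (by omega) ?_ | refine wdt (by omega) ?_ | refine wp (by omega) ?_
          | refine wg (by omega) ?_ | refine wl (by omega) ?_
          | refine wsh (by assumption) (by omega) ?_ | refine wsh0 (by assumption) (by omega) ?_)
        first
          | exact wn (by omega) | exact wsh1 (by assumption) (by omega) (by omega)
          | exact wsh2 (by assumption) (by omega) (by omega))
  · exact absurd rfl hr

/-- the tucked end can be slid under the two final minima -/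
theorem slide_end (b : Bool) :
    E 4 0 [lett b 2, lett b 2, death 1, death 0] [lett b 0, lett b 0, death 1, death 0] := by
  have q : E 4 0 [lett b 2, death 1, death 0] [lett b 0, death 1, death 0] := by
    have q1 := E.appr (w := [death 0]) (l := 0) (E.sd (n := 4) b 1 (by omega)) (by
        repeat (first
          | refine wb (by omega) ?_ | refine wdt (by omega) ?_ | refine wp (by omega) ?_
          | refine wg (by omega) ?_ | refine wl (by omega) ?_)
        exact wn (by omega))
    have h2 : E 4 0 [death 0, death 0] [death 2, death 0] :=
      comm_piece (p := death 0) (q := death 0) (n := 2) (k := 0) (m := 2) (l := 0) rfl rfl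
    have q2 := E.appl (w := [lett (!b) 1]) (n := 4) (by
        repeat (first
          | refine wb (by omega) ?_ | refine wdt (by omega) ?_ | refine wp (by omega) ?_
          | refine wg (by omega) ?_ | refine wl (by omega) ?_)
        exact wn (by omega)) h2
    have q3 := E.appr (w := [death 0]) (l := 0) (E.sd (n := 4) (!b) 0 (by omega)) (by
        repeat (first
          | refine wb (by omega) ?_ | refine wdt (by omega) ?_ | refine wp (by omega) ?_
          | refine wg (by omega) ?_ | refine wl (by omega) ?_)
        exact wn (by omega))
    simp only [Bool.not_not] at q3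
    exact q1.trans (q2.symm.trans q3)
  have a1 := E.appl (w := [lett b 2]) (n := 4) (by
        repeat (first
          | refine wb (by omega) ?_ | refine wdt (by omega) ?_ | refine wp (by omega) ?_
          | refine wg (by omega) ?_ | refine wl (by omega) ?_)
        exact wn (by omega)) q
  have h2 : E 4 4 [lett b 0, lett b 2] [lett b 2, lett b 0] := by
    have := comm_piece (p := lett b 0) (q := lett b 0) (n := 2) (k := 2) (m := 2) (l := 2)
      (pwl _ (by omega)) (pwl _ (by omega))
    simpa using this
  have a2 := E.appr (w := [death 1, death 0]) (l := 0) h2 (by
        repeat (first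
          | refine wb (by omega) ?_ | refine wdt (by omega) ?_ | refine wp (by omega) ?_
          | refine wg (by omega) ?_ | refine wl (by omega) ?_)
        exact wn (by omega))
  have a3 := E.appl (w := [lett b 0]) (n := 4) (by
        repeat (first
          | refine wb (by omega) ?_ | refine wdt (by omega) ?_ | refine wp (by omega) ?_
          | refine wg (by omega) ?_ | refine wl (by omega) ?_)
        exact wn (by omega)) q
  exact a1.trans (a2.symm.trans a3)

/-- the two ways to end a tie, brought to the closure of a state -/
theorem tuck_R {W : Word} (h : width W 2 = some 2) : E 0 0 (tuck R W)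
    ([birth 0] ++ turn C (R, true) (turn R (C, false) (W ++ [lett true 0] ++ [lett true 0]))
      ++ [death 0]) := by
  have h1 : E 4 4 (W ++ [pos 2, pos 2]) ([pos 2, pos 2] ++ W) :=
    comm (u := W) (v := [pos 0, pos 0]) (n := 2) (k := 2) (m := 2) (l := 2) h (by
        repeat (first
          | refine wb (by omega) ?_ | refine wdt (by omega) ?_ | refine wp (by omega) ?_
          | refine wg (by omega) ?_ | refine wl (by omega) ?_)
        exact wn (by omega))
  have a1 := E.ctx (m := 0) (l := 0) [birth 0, birth 2, pos 1, pos 1] [death 1, death 0] (by
        repeat (first
          | refine wb (by omega) ?_ | refine wdt (by omega) ?_ | refine wp (by omega) ?_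
          | refine wg (by omega) ?_ | refine wl (by omega) ?_)
        exact wn (by omega))
    (by
        repeat (first
          | refine wb (by omega) ?_ | refine wdt (by omega) ?_ | refine wp (by omega) ?_
          | refine wg (by omega) ?_ | refine wl (by omega) ?_)
        exact wn (by omega)) h1
  have a2 := E.ctx (m := 0) (l := 0) ([birth 0, birth 2, pos 1, pos 1] ++ W) [] (by
        try simp only [List.append_assoc, List.cons_append, List.nil_append, shift_append,
          shift_shift, shift_nil, shift_cons, up_birth, up_death, up_pos, up_neg, up_lett]
        repeat (first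
          | refine wb (by omega) ?_ | refine wdt (by omega) ?_ | refine wp (by omega) ?_
          | refine wg (by omega) ?_ | refine wl (by omega) ?_
          | refine wsh (by assumption) (by omega) ?_ | refine wsh0 (by assumption) (by omega) ?_)
        first
          | exact wn (by omega) | exact wsh1 (by assumption) (by omega) (by omega)
          | exact wsh2 (by assumption) (by omega) (by omega)) (by
        repeat (first
          | refine wb (by omega) ?_ | refine wdt (by omega) ?_ | refine wp (by omega) ?_
          | refine wg (by omega) ?_ | refine wl (by omega) ?_)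
        exact wn (by omega))
    (slide_end true)
  simp [tuck, turn, crossing, lett] at a1 a2 ⊢
  exact a1.symm.trans a2

theorem tuck_L {W : Word} (h : width W 2 = some 2) : E 0 0 (tuck L W)
    ([birth 0] ++ turn C (L, true) (turn L (C, false) (W ++ [lett false 0] ++ [lett false 0]))
      ++ [death 0]) := by
  have h1 : E 4 4 ([neg 0, neg 0] ++ shift 2 W) (shift 2 W ++ [neg 0, neg 0]) :=
    comm (u := [neg 0, neg 0]) (n := 2) (k := 2) (m := 2) (l := 2) (by
        repeat (first
          | refine wb (by omega) ?_ | refine wdt (by omega) ?_ | refine wp (by omega) ?_
          | refine wg (by omega) ?_ | refine wl (by omega) ?_)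
        exact wn (by omega)) h
  have a1 := E.ctx (m := 0) (l := 0) [birth 0, birth 0, neg 1, neg 1] [death 1, death 0] (by
        repeat (first
          | refine wb (by omega) ?_ | refine wdt (by omega) ?_ | refine wp (by omega) ?_
          | refine wg (by omega) ?_ | refine wl (by omega) ?_)
        exact wn (by omega))
    (by
        repeat (first
          | refine wb (by omega) ?_ | refine wdt (by omega) ?_ | refine wp (by omega) ?_
          | refine wg (by omega) ?_ | refine wl (by omega) ?_)
        exact wn (by omega)) h1
  have a2 := E.ctx (m := 0) (l := 0) ([birth 0, birth 0, neg 1, neg 1] ++ shift 2 W) []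
    (by
        try simp only [List.append_assoc, List.cons_append, List.nil_append, shift_append,
          shift_shift, shift_nil, shift_cons, up_birth, up_death, up_pos, up_neg, up_lett]
        repeat (first
          | refine wb (by omega) ?_ | refine wdt (by omega) ?_ | refine wp (by omega) ?_
          | refine wg (by omega) ?_ | refine wl (by omega) ?_
          | refine wsh (by assumption) (by omega) ?_ | refine wsh0 (by assumption) (by omega) ?_)
        first
          | exact wn (by omega) | exact wsh1 (by assumption) (by omega) (by omega)
          | exact wsh2 (by assumption) (by omega) (by omega)) (by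
        repeat (first
          | refine wb (by omega) ?_ | refine wdt (by omega) ?_ | refine wp (by omega) ?_
          | refine wg (by omega) ?_ | refine wl (by omega) ?_)
        exact wn (by omega)) (slide_end false)
  simp [tuck, turn, crossing, lett, right_eq] at a1 a2 ⊢
  exact a1.trans a2.symm

/-- the diagrams obtained are plats on four strands -/
theorem tuck_plat {r : Region} {W : Word} (h : Inv r W) (hr : r ≠ C) :
    ∃ β : List (Bool × Fin 3), E 0 0 (tuck r W) (cups ++ bw β ++ [death 0, death 0]) := by
  rcases r with _ | _ | _
  · obtain ⟨hW, hR⟩ := h
    have i1 : Inv L (W ++ [lett false 0] ++ [lett false 0]) := by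
      refine ⟨width_comp (width_comp hW (E.lw _ 0 (by omega))) (E.lw _ 0 (by omega)), ?_⟩
      rw [stay, stay]
      exact (hR.app false 1 (by omega)).app false 1 (by omega)
    have i2 := inv_turn (m := (C, false)) i1 (by decide)
    obtain ⟨w3, r3⟩ := inv_turn (m := (L, true)) i2 (by decide)
    obtain ⟨β, hβ⟩ := closure_two w3 r3
    exact ⟨β, (tuck_L hW).trans hβ⟩
  · obtain ⟨hW, hR⟩ := h
    have i1 : Inv R (W ++ [lett true 0] ++ [lett true 0]) := by
      refine ⟨width_comp (width_comp hW (E.lw _ 0 (by omega))) (E.lw _ 0 (by omega)), ?_⟩
      rw [stay, stay]
      exact (hR.app true 1 (by omega)).app true 1 (by omega)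
    have i2 := inv_turn (m := (C, false)) i1 (by decide)
    obtain ⟨w3, r3⟩ := inv_turn (m := (R, true)) i2 (by decide)
    obtain ⟨β, hβ⟩ := closure_two w3 r3
    exact ⟨β, (tuck_R hW).trans hβ⟩
  · exact absurd rfl hr

theorem finish_plat {r : Region} {W : Word} (s : List Move) (h : Inv r W)
    (hc : List.IsChain (fun x y : Region => x ≠ y) (r :: s.map Prod.fst))
    (he : ∃ (u : List Region) (q : Region), q ≠ C ∧ r :: s.map Prod.fst = u ++ [q, C]) :
    ∃ β : List (Bool × Fin 3), E 0 0 (finish r W s) (cups ++ bw β ++ [death 0, death 0]) := by
  induction s generalizing r W with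
  | nil =>
    obtain ⟨u, q, -, hu⟩ := he
    have := congrArg List.length hu
    simp at this
  | cons m s ih =>
    cases s with
    | nil =>
      obtain ⟨u, q, hq, hu⟩ := he
      have hr : r = q := by
        cases u with
        | nil => simp at hu; exact hu.1
        | cons a u =>
          have := congrArg List.length hu
          simp at this
      subst hr
      exact tuck_plat h hq
    | cons m' s =>
      simp only [List.map_cons, List.isChain_cons_cons] at hc
      refine ih (inv_turn h hc.1) (by simpa using hc.2) ?_
      obtain ⟨u, q, hq, hu⟩ := he
      cases u with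
      | nil =>
        have := congrArg List.length hu
        simp at this
      | cons a u =>
        simp only [List.map_cons, List.cons_append, List.cons.injEq] at hu
        exact ⟨u, q, hq, by simpa using hu.2⟩

/-- the state after the first move -/
theorem inv_first (b : Bool) : Inv L [lett b 0] := by
  refine ⟨E.lw b 0 (by omega), [(b, 1)], ?_⟩
  have : FS [lett b 0] = cups ++ bw [(b, 1)] := by simp [FS]
  rw [this]
  exact E.refl (width_comp width_cups (width_bw _))

theorem maxima_bw (β : List (Bool × Fin 3)) (w : Word) : maxima (bw β ++ w) = maxima w := by
  induction β with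
  | nil => rfl
  | cons x β ih =>
    obtain ⟨b, i⟩ := x
    cases b <;> simpa [maxima] using ih

/-- **Every tie knot is a 2-bridge knot.** The diagram of every tie sequence is a closed diagram and
is isotopic to a diagram with at most two local maxima, namely to a plat on four strands. -/
theorem main (s : List Move) (h : IsTie s) :
    Closed (tieDiagram s) ∧ BridgeAtMost 2 (tieDiagram s) := by
  obtain ⟨⟨b, t, rfl⟩, hr, -, v, he⟩ := h
  have hc : List.IsChain (fun x y : Region => x ≠ y) (L :: t.map Prod.fst) := by
    have := (List.isChain_map (R := fun x y : Region => x ≠ y) Prod.fst (l := (L, b) :: t)).2 hr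
    simpa using this
  have he' : ∃ (u : List Region) (q : Region), q ≠ C ∧ L :: t.map Prod.fst = u ++ [q, C] := by
    rcases he with he | he
    · refine ⟨v.map Prod.fst ++ [L], R, by decide, ?_⟩
      have := congrArg (List.map Prod.fst) he
      simpa using this
    · refine ⟨v.map Prod.fst ++ [R], L, by decide, ?_⟩
      have := congrArg (List.map Prod.fst) he
      simpa using this
  obtain ⟨β, hβ⟩ := finish_plat t (inv_first b) hc he'
  refine ⟨hβ.1, _, hβ.2.1, hβ.iso, ?_⟩
  simp [cups, maxima, maxima_bw]

end Pool.Agent.Q124.Tie
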